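import Mathlib

/-!
Periodic beams observed along integer-speed lines through a common point:
the inverse (observability) inequality fails, for every number of lines.
-/

namespace Pool.Agent.Results.MP_8d8cf3_an.IntegerSpeedsFail

open Complex

/-- The solution `u(t,x)` of the periodic beam equation with coefficients `cp = c⁺`, `cm = c⁻`:
`u(t,x) = c⁺₀ + c⁻₀ t + ∑_{k ≠ 0} (c⁺_k e^{i k² t} + c⁻_k e^{-i k² t}) e^{i k x}`.
It is used below only for finitely supported coefficient sequences, where the series is a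
finite sum. -/
noncomputable def beam (cp cm : ℤ → ℂ) (t x : ℝ) : ℂ :=
  cp 0 + cm 0 * (t : ℂ) +
    ∑' k : ℤ, if k = 0 then 0 else
      (cp k * exp (I * (k : ℂ) ^ 2 * (t : ℂ)) + cm k * exp (-(I * (k : ℂ) ^ 2 * (t : ℂ)))) *
        exp (I * (k : ℂ) * (x : ℂ))

theorem tele_one (ψ : ℤ → ℂ) (h : ∀ j, ‖ψ j‖ ≤ 1) (L : ℕ) (b : ℤ) :
    ‖∑ k ∈ Finset.range L, (ψ ((k : ℤ) + b) - ψ ((k : ℤ) + (b + 1)))‖ ≤ 2 := by
  have h1 : ∑ k ∈ Finset.range L, (ψ ((k : ℤ) + b) - ψ ((k : ℤ) + (b + 1)))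
      = ψ b - ψ ((L : ℤ) + b) := by
    have := Finset.sum_range_sub' (fun k : ℕ => ψ ((k : ℤ) + b)) L
    simp only [Nat.cast_zero, zero_add, Nat.cast_add, Nat.cast_one] at this
    rw [← this]
    refine Finset.sum_congr rfl fun k _ => ?_
    congr 2
    ring
  rw [h1]
  calc ‖ψ b - ψ ((L : ℤ) + b)‖ ≤ ‖ψ b‖ + ‖ψ ((L : ℤ) + b)‖ := norm_sub_le _ _
    _ ≤ 2 := by linarith [h b, h ((L : ℤ) + b)]

theorem tele (ψ : ℤ → ℂ) (h : ∀ j, ‖ψ j‖ ≤ 1) (L : ℕ) (b a : ℤ) :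
    ‖∑ k ∈ Finset.range L, (ψ ((k : ℤ) + b) - ψ ((k : ℤ) + (b + a)))‖ ≤ 2 * |(a : ℝ)| := by
  induction a using Int.induction_on with
  | zero => simp
  | succ n ih =>
    have e : ∑ k ∈ Finset.range L, (ψ ((k : ℤ) + b) - ψ ((k : ℤ) + (b + ((n : ℤ) + 1))))
        = ∑ k ∈ Finset.range L, (ψ ((k : ℤ) + b) - ψ ((k : ℤ) + (b + (n : ℤ))))
          + ∑ k ∈ Finset.range L,
            (ψ ((k : ℤ) + (b + n)) - ψ ((k : ℤ) + ((b + n) + 1))) := by
      rw [← Finset.sum_add_distrib]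
      refine Finset.sum_congr rfl fun k _ => ?_
      rw [add_assoc b]
      ring
    rw [e]
    have h2 := tele_one ψ h L (b + n)
    have h3 : |(((n : ℤ) + 1 : ℤ) : ℝ)| = |((n : ℤ) : ℝ)| + 1 := by
      push_cast
      rw [abs_of_nonneg (by positivity), abs_of_nonneg (by positivity)]
    rw [h3]
    linarith [norm_add_le
      (∑ k ∈ Finset.range L, (ψ ((k : ℤ) + b) - ψ ((k : ℤ) + (b + (n : ℤ)))))
      (∑ k ∈ Finset.range L, (ψ ((k : ℤ) + (b + n)) - ψ ((k : ℤ) + ((b + n) + 1))))]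
  | pred n ih =>
    have e : ∑ k ∈ Finset.range L, (ψ ((k : ℤ) + b) - ψ ((k : ℤ) + (b + (-(n : ℤ) - 1))))
        = ∑ k ∈ Finset.range L, (ψ ((k : ℤ) + b) - ψ ((k : ℤ) + (b + -(n : ℤ))))
          - ∑ k ∈ Finset.range L,
            (ψ ((k : ℤ) + (b + (-(n : ℤ) - 1))) - ψ ((k : ℤ) + ((b + (-(n : ℤ) - 1)) + 1))) := by
      rw [← Finset.sum_sub_distrib]
      refine Finset.sum_congr rfl fun k _ => ?_
      have : b + (-(n : ℤ) - 1) + 1 = b + -(n : ℤ) := by ring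
      rw [this]
      ring
    rw [e]
    have h2 := tele_one ψ h L (b + (-(n : ℤ) - 1))
    have h3 : |((-(n : ℤ) - 1 : ℤ) : ℝ)| = |((-(n : ℤ) : ℤ) : ℝ)| + 1 := by
      push_cast
      rw [abs_of_nonpos (by linarith [(Nat.cast_nonneg n : (0 : ℝ) ≤ n)]),
        abs_of_nonpos (by linarith [(Nat.cast_nonneg n : (0 : ℝ) ≤ n)])]
      ring
    rw [h3]
    linarith [norm_sub_le
      (∑ k ∈ Finset.range L, (ψ ((k : ℤ) + b) - ψ ((k : ℤ) + (b + -(n : ℤ)))))
      (∑ k ∈ Finset.range L,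
        (ψ ((k : ℤ) + (b + (-(n : ℤ) - 1))) - ψ ((k : ℤ) + ((b + (-(n : ℤ) - 1)) + 1))))]

/-- A sum over the integers of a function supported in `1 ≤ |k| ≤ L`. -/
theorem tsum_sym {E : Type} [AddCommMonoid E] [TopologicalSpace E] (f : ℤ → E) (L : ℕ)
    (h0 : f 0 = 0) (h : ∀ k : ℤ, (L : ℤ) < |k| → f k = 0) :
    ∑' k : ℤ, f k = ∑ k ∈ Finset.range L, (f ((k : ℤ) + 1) + f (-((k : ℤ) + 1))) := by
  classical
  have hs : ∀ k ∉ ((Finset.range L).image (fun k : ℕ => (k : ℤ) + 1)) ∪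
      ((Finset.range L).image (fun k : ℕ => -((k : ℤ) + 1))), f k = 0 := by
    intro k hk
    by_cases hk0 : k = 0
    · rw [hk0, h0]
    apply h
    by_contra hlt
    apply hk
    simp only [Finset.mem_union, Finset.mem_image, Finset.mem_range]
    rcases lt_or_gt_of_ne hk0 with hneg | hpos
    · right
      refine ⟨(-k - 1).toNat, ?_, ?_⟩
      · rw [abs_of_neg hneg] at hlt; omega
      · omega
    · left
      refine ⟨(k - 1).toNat, ?_, ?_⟩
      · rw [abs_of_pos hpos] at hlt; omega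
      · omega
  rw [tsum_eq_sum hs, Finset.sum_union, Finset.sum_image, Finset.sum_image,
    Finset.sum_add_distrib]
  · intro x _ y _ hxy
    simp only at hxy
    omega
  · intro x _ y _ hxy
    simp only at hxy
    omega
  · rw [Finset.disjoint_left]
    intro k hk hk'
    simp only [Finset.mem_image, Finset.mem_range] at hk hk'
    obtain ⟨u, _, hu⟩ := hk
    obtain ⟨v, _, hv⟩ := hk'
    omega

/-- the coefficients of the test solution. -/
noncomputable def coef (L : ℕ) (ts xs : ℝ) (k : ℤ) : ℂ :=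
  if |k| ≤ (L : ℤ) then
    (Int.sign k : ℂ) * exp (-(I * (k : ℂ) ^ 2 * (ts : ℂ)) - I * (k : ℂ) * (xs : ℂ)) else 0

theorem coef_support (L : ℕ) (ts xs : ℝ) : (Function.support (coef L ts xs)).Finite := by
  refine (Set.finite_Icc (-(L : ℤ)) L).subset fun k hk => ?_
  by_contra hk'
  apply hk
  unfold coef
  rw [if_neg]
  intro h
  exact hk' (abs_le.mp h)

theorem norm_phase (k : ℤ) (ts xs : ℝ) :
    ‖exp (-(I * (k : ℂ) ^ 2 * (ts : ℂ)) - I * (k : ℂ) * (xs : ℂ))‖ = 1 := by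
  have : -(I * (k : ℂ) ^ 2 * (ts : ℂ)) - I * (k : ℂ) * (xs : ℂ)
      = ((-((k : ℝ) ^ 2 * ts) - k * xs : ℝ) : ℂ) * I := by
    push_cast; ring
  rw [this, norm_exp_ofReal_mul_I]

theorem coef_energy (L : ℕ) (ts xs : ℝ) :
    ∑' k : ℤ, (‖coef L ts xs k‖ ^ 2 + ‖(0 : ℤ → ℂ) k‖ ^ 2) = 2 * (L : ℝ) := by
  rw [tsum_sym _ L]
  · have : ∀ k ∈ Finset.range L,
        (‖coef L ts xs ((k : ℤ) + 1)‖ ^ 2 + ‖(0 : ℤ → ℂ) ((k : ℤ) + 1)‖ ^ 2) +
        (‖coef L ts xs (-((k : ℤ) + 1))‖ ^ 2 + ‖(0 : ℤ → ℂ) (-((k : ℤ) + 1))‖ ^ 2) = (2 : ℝ) := by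
      intro k hk
      have hk' : k < L := Finset.mem_range.mp hk
      have h1 : |(k : ℤ) + 1| ≤ (L : ℤ) := by rw [abs_of_pos (by omega)]; omega
      have h2 : |-((k : ℤ) + 1)| ≤ (L : ℤ) := by rw [abs_neg]; exact h1
      have s1 : Int.sign ((k : ℤ) + 1) = 1 := Int.sign_eq_one_of_pos (by omega)
      have s2 : Int.sign (-((k : ℤ) + 1)) = -1 := Int.sign_eq_neg_one_of_neg (by omega)
      unfold coef
      rw [if_pos h1, if_pos h2, s1, s2, norm_mul, norm_mul, norm_phase, norm_phase]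
      simp
      norm_num
    rw [Finset.sum_congr rfl this]
    simp [mul_comm]
  · simp [coef]
  · intro k hk
    unfold coef
    rw [if_neg (by omega)]
    simp

theorem beam_bound (L : ℕ) (ts xs s : ℝ) (a : ℤ) :
    ‖beam (coef L ts xs) 0 (ts + s) (xs - a * s)‖ ≤ 2 * |(a : ℝ)| := by
  set ψ : ℤ → ℂ := fun j => exp ((((j : ℝ) ^ 2 * s - a * j * s : ℝ) : ℂ) * I) with hψ
  have hψ1 : ∀ j, ‖ψ j‖ ≤ 1 := fun j => (norm_exp_ofReal_mul_I _).le
  have key : beam (coef L ts xs) 0 (ts + s) (xs - a * s)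
      = ∑ k ∈ Finset.range L, (ψ ((k : ℤ) + 1) - ψ ((k : ℤ) + (1 + a))) := by
    unfold beam
    rw [tsum_sym _ L]
    · have c0 : coef L ts xs 0 = 0 := by simp [coef]
      rw [c0]
      simp only [Pi.zero_apply, zero_mul, add_zero, zero_add]
      refine Finset.sum_congr rfl fun k hk => ?_
      have hk' : k < L := Finset.mem_range.mp hk
      have h1 : |(k : ℤ) + 1| ≤ (L : ℤ) := by rw [abs_of_pos (by omega)]; omega
      have h2 : |-((k : ℤ) + 1)| ≤ (L : ℤ) := by rw [abs_neg]; exact h1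
      have s1 : Int.sign ((k : ℤ) + 1) = 1 := Int.sign_eq_one_of_pos (by omega)
      have s2 : Int.sign (-((k : ℤ) + 1)) = -1 := Int.sign_eq_neg_one_of_neg (by omega)
      rw [if_neg (by omega), if_neg (by omega)]
      unfold coef
      rw [if_pos h1, if_pos h2, s1, s2]
      simp only [hψ]
      simp only [Int.cast_one, one_mul, Int.cast_neg, neg_mul, ← exp_add, sub_eq_add_neg]
      congr 1
      · congr 1; push_cast; ring
      · congr 2; push_cast; ring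
    · simp
    · intro k hk
      have : coef L ts xs k = 0 := by
        unfold coef
        rw [if_neg (by omega)]
      simp [this]
  rw [key]
  exact tele ψ hψ1 L 1 a

/-- For every number `m` of lines, all integer speeds `a i`, all base points `(t i, x i)` such
that the lines `s ↦ (t i + s, x i - a i s)` pass through a common point `(ts, xs)`, and every
`T > 0`, the inverse inequality fails, already for finitely supported coefficients. -/
theorem result (m : ℕ) (a : Fin m → ℤ) (t x : Fin m → ℝ)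
    (hconc : ∃ ts xs : ℝ, ∀ i, ∃ s : ℝ, t i + s = ts ∧ x i - (a i : ℝ) * s = xs)
    (T : ℝ) (hT : 0 < T) :
    ¬ ∃ α : ℝ, 0 < α ∧ ∀ cp cm : ℤ → ℂ,
      (Function.support cp).Finite → (Function.support cm).Finite →
      ∑' k : ℤ, (‖cp k‖ ^ 2 + ‖cm k‖ ^ 2) ≤
        α * ∑ i, ∫ s in (0 : ℝ)..T, ‖beam cp cm (t i + s) (x i - (a i : ℝ) * s)‖ ^ 2 := by
  rintro ⟨α, hα, H⟩
  obtain ⟨ts, xs, hc⟩ := hconc
  obtain ⟨L, hL⟩ := exists_nat_gt (α * ∑ i, T * (2 * |(a i : ℝ)|) ^ 2)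
  have h1 := H (coef L ts xs) 0 (coef_support L ts xs) (by simp)
  rw [coef_energy] at h1
  have h2 : ∑ i, ∫ s in (0 : ℝ)..T, ‖beam (coef L ts xs) 0 (t i + s) (x i - (a i : ℝ) * s)‖ ^ 2
      ≤ ∑ i, T * (2 * |(a i : ℝ)|) ^ 2 := by
    refine Finset.sum_le_sum fun i _ => ?_
    obtain ⟨s0, hs1, hs2⟩ := hc i
    have hb : ∀ s ∈ Set.uIoc (0 : ℝ) T,
        ‖‖beam (coef L ts xs) 0 (t i + s) (x i - (a i : ℝ) * s)‖ ^ 2‖ ≤ (2 * |(a i : ℝ)|) ^ 2 := by
      intro s _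
      have e1 : t i + s = ts + (s - s0) := by linarith
      have e2 : x i - (a i : ℝ) * s = xs - (a i : ℝ) * (s - s0) := by linarith
      rw [e1, e2, Real.norm_of_nonneg (by positivity)]
      exact pow_le_pow_left₀ (norm_nonneg _) (beam_bound L ts xs (s - s0) (a i)) 2
    have := intervalIntegral.norm_integral_le_of_norm_le_const hb
    rw [sub_zero, abs_of_pos hT] at this
    calc _ ≤ _ := le_abs_self _
      _ ≤ _ := this
      _ = _ := mul_comm _ _
  have h3 := mul_le_mul_of_nonneg_left h2 hα.le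
  have h4 : (0 : ℝ) ≤ L := Nat.cast_nonneg L
  linarith

end Pool.Agent.Results.MP_8d8cf3_an.IntegerSpeedsFail
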