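import Mathlib
import Pool.Agent.MP_8d8cf3_an.L2Limit

/-!
Periodic beams observed along lines of distinct non-integer speeds: two lines always suffice.
-/

namespace Pool.Agent.Results.MP_8d8cf3_an.NonIntegerSpeeds

open Complex MeasureTheory Filter Topology Pool.Agent.MP_8d8cf3_an

/-- The symmetric truncation at `|k| ≤ N` of
`u(t,x) = c⁺₀ + c⁻₀ t + ∑_{k ≠ 0} (c⁺_k e^{i k² t} + c⁻_k e^{-i k² t}) e^{i k x}`. -/
noncomputable def beamSum (cp cm : ℤ → ℂ) (N : ℕ) (t x : ℝ) : ℂ :=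
  cp 0 + cm 0 * (t : ℂ) +
    ∑ k ∈ (Finset.Icc (-(N : ℤ)) N).erase 0,
      (cp k * exp (I * (k : ℂ) ^ 2 * (t : ℂ)) + cm k * exp (-(I * (k : ℂ) ^ 2 * (t : ℂ)))) *
        exp (I * (k : ℂ) * (x : ℂ))

/-- `g` is the function `s ↦ u(t₀ + s, x₀ - a s)` on `(0,T)`: it is square integrable on `(0,T)`
and it is the limit in `L²(0,T)` of the truncated series along the line. -/
def IsTrace (cp cm : ℤ → ℂ) (a t₀ x₀ T : ℝ) (g : ℝ → ℂ) : Prop :=
  MemLp g 2 (volume.restrict (Set.Ioc 0 T)) ∧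
    Tendsto (fun N : ℕ => ∫ s in (0 : ℝ)..T, ‖beamSum cp cm N (t₀ + s) (x₀ - a * s) - g s‖ ^ 2)
      atTop (𝓝 0)

/-- index set of the truncation. -/
noncomputable def JJ (N : ℕ) : Finset (ℤ ⊕ ℤ) := (box N).erase (Sum.inr 0)

/-- unimodular weights. -/
noncomputable def wt (t₀ x₀ : ℝ) : ℤ ⊕ ℤ → ℂ :=
  Sum.elim (fun k => ex ((k : ℝ) ^ 2) t₀ * ex k x₀) (fun k => ex (-(k : ℝ) ^ 2) t₀ * ex k x₀)

theorem norm_wt (t₀ x₀ : ℝ) (p : ℤ ⊕ ℤ) : ‖wt t₀ x₀ p‖ = 1 := by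
  rcases p with k | k <;> simp [wt, norm_ex]

theorem JJ_left (N : ℕ) : (JJ N).toLeft = Finset.Icc (-(N : ℤ)) N := by
  ext k; simp [JJ, box]

theorem JJ_right (N : ℕ) : (JJ N).toRight = (Finset.Icc (-(N : ℤ)) N).erase 0 := by
  ext k; simp [JJ, box]

theorem zero_mem (N : ℕ) : (0 : ℤ) ∈ Finset.Icc (-(N : ℤ)) N := by simp

theorem beamSum_eq (cp cm : ℤ → ℂ) (N : ℕ) (a t₀ x₀ s : ℝ) :
    beamSum cp cm N (t₀ + s) (x₀ - a * s) = cm 0 * ((t₀ + s : ℝ) : ℂ) +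
      ∑ p ∈ JJ N, (Sum.elim cp cm p * wt t₀ x₀ p) * ex (freq a p) s := by
  rw [Finset.sum_sum_eq_sum_toLeft_add_sum_toRight, JJ_left, JJ_right,
    ← Finset.add_sum_erase _ _ (zero_mem N)]
  unfold beamSum
  have e0 : Sum.elim cp cm (Sum.inl 0) * wt t₀ x₀ (Sum.inl 0) * ex (freq a (Sum.inl 0)) s
      = cp 0 := by
    simp [wt, freq, ex_zero]
  rw [e0]
  have e1 : ∀ k : ℤ, (cp k * exp (I * (k : ℂ) ^ 2 * ((t₀ + s : ℝ) : ℂ)) +
        cm k * exp (-(I * (k : ℂ) ^ 2 * ((t₀ + s : ℝ) : ℂ)))) *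
        exp (I * (k : ℂ) * ((x₀ - a * s : ℝ) : ℂ)) =
      Sum.elim cp cm (Sum.inl k) * wt t₀ x₀ (Sum.inl k) * ex (freq a (Sum.inl k)) s +
      Sum.elim cp cm (Sum.inr k) * wt t₀ x₀ (Sum.inr k) * ex (freq a (Sum.inr k)) s := by
    intro k
    simp only [Sum.elim_inl, Sum.elim_inr, wt, freq, ex, add_mul, mul_assoc, ← exp_add]
    congr 3
    · push_cast; ring
    · push_cast; ring
  simp_rw [e1, Finset.sum_add_distrib]
  ring

theorem continuous_beamSum (cp cm : ℤ → ℂ) (N : ℕ) (a t₀ x₀ : ℝ) :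
    Continuous fun s : ℝ => beamSum cp cm N (t₀ + s) (x₀ - a * s) := by
  unfold beamSum
  fun_prop

theorem JJ_mono {N M : ℕ} (h : N ≤ M) : JJ N ⊆ JJ M := by
  intro p hp
  simp only [JJ, Finset.mem_erase, mem_box] at hp ⊢
  exact ⟨hp.1, by omega⟩

theorem image_sub (a : ℝ) (J : Finset (ℤ ⊕ ℤ)) :
    (↑(J.image (freq a)) : Set ℝ) ⊆ Set.range (freq a) := by
  intro l hl
  obtain ⟨p, _, rfl⟩ := Finset.mem_image.mp hl
  exact ⟨p, rfl⟩

theorem exists_trace (cp cm : ℤ → ℂ) (hp : Summable fun k => ‖cp k‖ ^ 2)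
    (hm : Summable fun k => ‖cm k‖ ^ 2) (a t₀ x₀ T : ℝ) (ha : ∀ n : ℤ, a ≠ n) (hT : 0 < T) :
    ∃ g : ℝ → ℂ, IsTrace cp cm a t₀ x₀ T g ∧
      Tendsto (fun N : ℕ => ∫ s in (0 : ℝ)..T, ‖beamSum cp cm N (t₀ + s) (x₀ - a * s)‖ ^ 2)
        atTop (𝓝 (∫ s in (0 : ℝ)..T, ‖g s‖ ^ 2)) := by
  classical
  obtain ⟨C, hC, HC⟩ := dir_all a ha T hT
  have hsum : Summable fun p : ℤ ⊕ ℤ => ‖Sum.elim cp cm p‖ ^ 2 :=
    Summable.sum _ (by simpa [Function.comp_def] using hp) (by simpa [Function.comp_def] using hm)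
  have := exists_L2_limit (fun N s => beamSum cp cm N (t₀ + s) (x₀ - a * s))
    (fun N => continuous_beamSum cp cm N a t₀ x₀) T hT.le (by
      intro ε hε
      obtain ⟨S, HS⟩ := summable_iff_vanishing_norm.mp hsum (ε / (2 * C)) (by positivity)
      refine ⟨S.sup (fun p => (idx p).natAbs), fun N hN => ?_⟩
      set N0 := S.sup (fun p => (idx p).natAbs) with hN0
      have e : ∀ s, beamSum cp cm N (t₀ + s) (x₀ - a * s) -
          beamSum cp cm N0 (t₀ + s) (x₀ - a * s) =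
          trig ((JJ N \ JJ N0).image (freq a))
            (grp a (JJ N \ JJ N0) (fun p => Sum.elim cp cm p * wt t₀ x₀ p)) s := by
        intro s
        rw [← sum_eq_trig, beamSum_eq, beamSum_eq, Finset.sum_sdiff_eq_sub (JJ_mono hN)]
        ring
      simp_rw [e]
      refine (HC _ _ (image_sub _ _)).trans ?_
      have h1 := grp_energy_le a ha (JJ N \ JJ N0) (fun p => Sum.elim cp cm p * wt t₀ x₀ p)
      simp only [norm_mul, norm_wt, mul_one] at h1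
      have hdisj : Disjoint (JJ N \ JJ N0) S := by
        rw [Finset.disjoint_left]
        intro p hp hpS
        have hp' := Finset.mem_sdiff.mp hp
        apply hp'.2
        have h2 : (idx p).natAbs ≤ N0 := Finset.le_sup (f := fun p => (idx p).natAbs) hpS
        have h3 := hp'.1
        simp only [JJ, Finset.mem_erase, mem_box] at h3 ⊢
        refine ⟨h3.1, ?_⟩
        rw [Int.abs_eq_natAbs]
        exact_mod_cast h2
      have h4 := (le_abs_self _).trans (HS _ hdisj).le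
      calc _ ≤ C * (2 * (ε / (2 * C))) := by
            gcongr
            linarith
        _ = ε := by field_simp)
  obtain ⟨g, h1, h2, h3⟩ := this
  exact ⟨g, ⟨h1, h2⟩, h3⟩

theorem finite_ineq (a b ta xa tb xb T : ℝ) (ha : ∀ n : ℤ, a ≠ n) (hb : ∀ n : ℤ, b ≠ n)
    (hab : a ≠ b) (hT : 0 < T) :
    ∃ α : ℝ, 0 < α ∧ ∀ (cp cm : ℤ → ℂ) (N : ℕ),
      ∑ k ∈ Finset.Icc (-(N : ℤ)) N, (‖cp k‖ ^ 2 + ‖cm k‖ ^ 2) ≤
        α * ((∫ s in (0 : ℝ)..T, ‖beamSum cp cm N (ta + s) (xa - a * s)‖ ^ 2) +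
          ∫ s in (0 : ℝ)..T, ‖beamSum cp cm N (tb + s) (xb - b * s)‖ ^ 2) := by
  obtain ⟨Ca, hCa, Ha⟩ := inv_all a ha T hT ta
  obtain ⟨Cb, hCb, Hb⟩ := inv_all b hb T hT tb
  obtain ⟨K, hK, HK⟩ := alg_bound a b ha hb hab (wt ta xa) (wt tb xb) (norm_wt _ _) (norm_wt _ _)
  refine ⟨(K + 1) * (Ca + Cb), by positivity, fun cp cm N => ?_⟩
  have h1 := Ha _ (grp a (JJ N) (fun p => Sum.elim cp cm p * wt ta xa p)) (cm 0)
    (image_sub a (JJ N))
  have h2 := Hb _ (grp b (JJ N) (fun p => Sum.elim cp cm p * wt tb xb p)) (cm 0)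
    (image_sub b (JJ N))
  have h3 := HK (JJ N) (Sum.elim cp cm) (Finset.notMem_erase _ _)
  simp_rw [← sum_eq_trig, ← beamSum_eq] at h1 h2
  rw [Finset.sum_sum_eq_sum_toLeft_add_sum_toRight, JJ_left, JJ_right] at h3
  simp only [Sum.elim_inl, Sum.elim_inr] at h3
  rw [Finset.sum_add_distrib, ← Finset.add_sum_erase _ (fun k => ‖cm k‖ ^ 2) (zero_mem N)]
  set Ia := ∫ s in (0 : ℝ)..T, ‖beamSum cp cm N (ta + s) (xa - a * s)‖ ^ 2
  set Ib := ∫ s in (0 : ℝ)..T, ‖beamSum cp cm N (tb + s) (xb - b * s)‖ ^ 2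
  set Sa := ∑ l ∈ (JJ N).image (freq a),
    ‖grp a (JJ N) (fun p => Sum.elim cp cm p * wt ta xa p) l‖ ^ 2
  set Sb := ∑ l ∈ (JJ N).image (freq b),
    ‖grp b (JJ N) (fun p => Sum.elim cp cm p * wt tb xb p) l‖ ^ 2
  have pa : 0 ≤ Ia := intervalIntegral.integral_nonneg hT.le fun t _ => by positivity
  have pb : 0 ≤ Ib := intervalIntegral.integral_nonneg hT.le fun t _ => by positivity
  have qa : 0 ≤ Sa := by positivity
  have qb : 0 ≤ Sb := by positivity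
  have q0 : 0 ≤ ‖cm 0‖ ^ 2 := by positivity
  have r1 : K * (Sa + Sb) ≤ K * (Ca * Ia + Cb * Ib) := by gcongr <;> linarith
  nlinarith [mul_nonneg hCa.le pb, mul_nonneg hCb.le pa, mul_nonneg hCb.le pb,
    mul_nonneg hK.le (mul_nonneg hCa.le pb), mul_nonneg hK.le (mul_nonneg hCb.le pa)]

/-- For every `m ≥ 2`, all pairwise distinct non-integer real speeds, all base points and every
`T > 0`, the inverse inequality holds for all square-summable coefficient sequences. -/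
theorem result (m : ℕ) (hm : 2 ≤ m) (a t x : Fin m → ℝ) (hinj : Function.Injective a)
    (hni : ∀ i, ∀ n : ℤ, a i ≠ n) (T : ℝ) (hT : 0 < T) :
    ∃ α : ℝ, 0 < α ∧ ∀ cp cm : ℤ → ℂ,
      Summable (fun k => ‖cp k‖ ^ 2) → Summable (fun k => ‖cm k‖ ^ 2) →
      ∃ g : Fin m → ℝ → ℂ, (∀ i, IsTrace cp cm (a i) (t i) (x i) T (g i)) ∧
        ∑' k : ℤ, (‖cp k‖ ^ 2 + ‖cm k‖ ^ 2) ≤ α * ∑ i, ∫ s in (0 : ℝ)..T, ‖g i s‖ ^ 2 := by
  set i0 : Fin m := ⟨0, by omega⟩ with hi0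
  set i1 : Fin m := ⟨1, by omega⟩ with hi1
  have hne : i0 ≠ i1 := by simp [hi0, hi1]
  obtain ⟨α, hα, H⟩ := finite_ineq (a i0) (a i1) (t i0) (x i0) (t i1) (x i1) T (hni _) (hni _)
    (fun h => hne (hinj h)) hT
  refine ⟨α, hα, fun cp cm hp hq => ?_⟩
  choose g hg1 hg2 using fun i => exists_trace cp cm hp hq (a i) (t i) (x i) T (hni i) hT
  refine ⟨g, hg1, ?_⟩
  have hl : Tendsto (fun N : ℕ => ∑ k ∈ Finset.Icc (-(N : ℤ)) N, (‖cp k‖ ^ 2 + ‖cm k‖ ^ 2))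
      atTop (𝓝 (∑' k : ℤ, (‖cp k‖ ^ 2 + ‖cm k‖ ^ 2))) := by
    refine (hp.add hq).hasSum.comp ?_
    refine Monotone.tendsto_atTop_atTop (fun N M h k hk => ?_) fun S => ?_
    · simp only [Finset.mem_Icc] at hk ⊢
      omega
    · refine ⟨S.sup Int.natAbs, fun k hk => ?_⟩
      have : k.natAbs ≤ S.sup Int.natAbs := Finset.le_sup hk
      simp only [Finset.mem_Icc]
      omega
  have hr := ((hg2 i0).add (hg2 i1)).const_mul α
  refine (le_of_tendsto_of_tendsto' hl hr (H cp cm)).trans ?_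
  gcongr
  rw [← Finset.sum_pair (f := fun i => ∫ s in (0 : ℝ)..T, ‖g i s‖ ^ 2) hne]
  exact Finset.sum_le_sum_of_subset_of_nonneg (Finset.subset_univ _) fun i _ _ =>
    intervalIntegral.integral_nonneg hT.le fun s _ => by positivity

end Pool.Agent.Results.MP_8d8cf3_an.NonIntegerSpeeds
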